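import Pool.Agent.Q35.TT.Stm4

/-!
# Double covers of `(ℙ¹)ⁿ` branched along smooth divisors of multidegree (4,…,4): points of bounded
degree which are torsion in all directions, statements (project TB, helper35)

`K` is a number field, `f` a polynomial over `K`; the statements are uniform in the number fields `L`
which contain `K`.
-/

set_option autoImplicit false

open Pool.Agent.Y720.MZ MvPolynomial Height AdmissibleAbsValues

namespace Pool.Agent.Q35.TB

open Pool.Agent.Q35.TT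

/-- The abscissas of the points of order dividing `n` on all quadratic twists, by `d`, of all curves
with coefficients bounded by `A` are bounded by `B θ v(d)`. -/
def LBW {K : Type} [Field K] (v : AbsoluteValue K ℝ) (A B θ : ℝ) (n : ℕ) : Prop :=
  ∀ a b c x y d : K, v a ≤ A → v b ≤ A → v c ≤ A → dsc a b c ≠ 0 → d ≠ 0 →
    TorP (d * a) (d ^ 2 * b) (d ^ 3 * c) x y n → v x ≤ B * θ * v d

/-- PRM: the points of an order prime to the residue characteristic. -/
def S_PRM : Prop :=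
  ∀ (K : Type) [Field K] [CharZero K] (v : AbsoluteValue K ℝ), IsNonarchimedean v → v 2 = 1 →
    v 3 = 1 → ∀ a b c x y : K, v a ≤ 1 → v b ≤ 1 → v c ≤ 1 → ∀ n : ℕ, v (n : K) = 1 →
      TorP a b c x y n → v x ≤ 1

/-- FGT: torsion points in the kernel of the reduction. -/
def S_FGT : Prop :=
  ∀ (K : Type) [Field K] [CharZero K] (v : AbsoluteValue K ℝ), IsNonarchimedean v → ∀ p : ℕ,
    p.Prime → 5 ≤ p → v (p : K) < 1 → ∀ (a b c x y : K) (e n : ℕ), v a ≤ 1 → v b ≤ 1 → v c ≤ 1 →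
      n ≠ 0 → e ≠ 0 → TorP a b c x y n → 1 < v x → 1 ≤ v x ^ e * v (p : K) →
      TorP a b c x y (p ^ e)

/-- LBU: the twisted bounds at the nonarchimedean places, uniform. -/
def S_LBU : Prop :=
  ∀ (K : Type) [Field K] [CharZero K] (v : AbsoluteValue K ℝ), IsNonarchimedean v →
    ∀ n : ℕ, n ≠ 0 →
      (v 2 = 1 → v 3 = 1 → LBW v 1 1 (v (n : K))⁻¹ n) ∧
      ∀ p : ℕ, p.Prime → v (p : K) < 1 → ∀ u : K, 1 ≤ v u → LBW v (v u) (v u ^ 2 / v (p : K)) 1 n

/-- LOX: the local inequality for the partial derivatives. -/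
def S_LOX : Prop :=
  ∀ (K : Type) [Field K] [CharZero K] (v : AbsoluteValue K ℝ) (A A' B θ : ℝ) (n : ℕ), n ≠ 0 →
    1 ≤ A → 1 ≤ B → 1 ≤ θ → 0 ≤ A' → 16 * A ^ 2 ≤ A' * v 3 → 137 * A ^ 3 ≤ A' * v 3 ^ 3 →
    v 2 ≤ 2 → v 3 ≤ 3 → LBW v A' B θ n →
    ∀ (a : Fin 5 → K) (m : K), m ≠ 0 → (∀ i, v (a i) ≤ A * v m ^ 4) → ∀ s : K,
      TorT a s n → ∀ k, v 3 * v (bd a ![1, s] k) ^ 2 ≤
        (144 * A + 12 * B) * θ * v (bq a ![1, s]) * max 1 (v s) ^ 2 * v m ^ 4

/-- LGX: the same at a good place, without constants. -/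
def S_LGX : Prop :=
  ∀ (K : Type) [Field K] [CharZero K] (v : AbsoluteValue K ℝ) (θ : ℝ) (n : ℕ),
    IsNonarchimedean v → v 2 = 1 → v 3 = 1 → n ≠ 0 → 1 ≤ θ → LBW v 1 1 θ n →
    ∀ (a : Fin 5 → K) (m : K), m ≠ 0 → (∀ i, v (a i) ≤ v m ^ 4) → ∀ s : K,
      TorT a s n → ∀ k, v (bd a ![1, s] k) ^ 2 ≤
        θ * v (bq a ![1, s]) * max 1 (v s) ^ 2 * v m ^ 4

/-- The polynomial `f` over the extension `L` of `K`. -/
noncomputable abbrev ex {K : Type} (L : Type) [Field K] [Field L] [Algebra K L] {ι : Type}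
    (f : MvPolynomial ι K) : MvPolynomial ι L := map (algebraMap K L) f

/-- GLD: the inequalities at all places of all extensions. -/
def S_GLD : Prop :=
  ∀ (K : Type) [Field K] [NumberField K] (n : ℕ) (f : MvPolynomial (Fin n) K),
    (∀ j, f.degreeOf j ≤ 4) →
    ∃ (B₀ : ℝ) (m₀ : ℕ), 1 ≤ B₀ ∧ m₀ ≠ 0 ∧
      ∀ (L : Type) [Field L] [NumberField L] [Algebra K L] (z : Fin n → L) (i : Fin n) (N : ℕ),
        N ≠ 0 → TorT (lc (ex L f) (af z) i) (z i) N → ∀ k,
        (∀ v ∈ archAbsVal (K := L), v (bd (lc (ex L f) (af z) i) (af z i) k) ^ 2 ≤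
          B₀ * (N : ℝ) ^ 4 * v (eval z (ex L f)) * max 1 (v (z i)) ^ 2 *
            ∏ j ∈ Finset.univ.erase i, max 1 (v (z j)) ^ 4) ∧
        ∀ v ∈ nonarchAbsVal (K := L), v (bd (lc (ex L f) (af z) i) (af z i) k) ^ 2 *
          v ((N * m₀ : ℕ) : L) ≤ v (eval z (ex L f)) * max 1 (v (z i)) ^ 2 *
            ∏ j ∈ Finset.univ.erase i, max 1 (v (z j)) ^ 4

/-- SEX: a place of good reduction with a small residue field, for all extensions of bounded
degree. -/
def S_SEX : Prop :=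
  ∀ (K : Type) [Field K] [NumberField K] (n : ℕ) (P : MvPolynomial (Fin n) K) (d : ℕ),
    (∀ j, P.degreeOf j ≤ d) → ∀ (S : Finset K) (M D : ℕ), ∃ C : ℝ, 0 < C ∧
      ∀ (L : Type) [Field L] [NumberField L] [Algebra K L], Module.finrank K L ≤ D →
      ∀ z : Fin n → L, eval z (ex L P) ≠ 0 →
      ∃ v ∈ nonarchAbsVal (K := L), ∃ p : ℕ, p.Prime ∧ 5 ≤ p ∧ v (p : L) < 1 ∧
        (∀ u : L, 1 < v u → 1 ≤ v u ^ (D * Module.finrank ℚ K) * v (p : L)) ∧
        (∀ s ∈ S, s ≠ 0 → v (algebraMap K L s) = 1) ∧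
        v (eval z (ex L P)) = ∏ j, max 1 (v (z j)) ^ d ∧
        ∃ (F : Type) (_ : Fintype F) (ρ : L → F),
          (((p * (Fintype.card F ^ 2 + 1) : ℕ) : ℝ)) ^ M ≤ C * ∏ j, mulHeight₁ (z j) ∧
          ∀ x y, v x ≤ 1 → v y ≤ 1 → ρ x = ρ y → v (x - y) < 1

/-- ORX: the order of the torsion points of bounded degree is less than any power of the height. -/
def S_ORX : Prop :=
  ∀ (K : Type) [Field K] [NumberField K] (n : ℕ) (f : MvPolynomial (Fin n) K),
    (∀ j, f.degreeOf j ≤ 4) → ∀ (i : Fin n) (M D : ℕ), ∃ C : ℝ, 0 < C ∧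
      ∀ (L : Type) [Field L] [NumberField L] [Algebra K L], Module.finrank K L ≤ D →
      ∀ (z : Fin n → L) (N : ℕ), N ≠ 0 → TorT (lc (ex L f) (af z) i) (z i) N →
        ∃ N' : ℕ, N' ≠ 0 ∧ TorT (lc (ex L f) (af z) i) (z i) N' ∧
          (N' : ℝ) ^ M ≤ C * ∏ j, mulHeight₁ (z j)

/-- PRD: the product of the local inequalities. -/
def S_PRD : Prop :=
  ∀ (L : Type) [Field L] [NumberField L] (ι : Type) [Finite ι] [Nonempty ι] (n : ℕ) (y : ι → L)
    (u : L) (z : Fin n → L) (a : Fin n → ℕ) (B : ℝ) (m : ℕ), y ≠ 0 → u ≠ 0 → 1 ≤ B → m ≠ 0 →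
    (∀ v ∈ archAbsVal (K := L), ∀ i, v (y i) ≤ B * v u * ∏ j, max 1 (v (z j)) ^ a j) →
    (∀ v ∈ nonarchAbsVal (K := L), ∀ i, v (y i) * v (m : L) ≤
      v u * ∏ j, max 1 (v (z j)) ^ a j) →
    mulHeight y ≤ (B * m) ^ totalWeight L * ∏ j, mulHeight₁ (z j) ^ a j

/-- NSD: a lower bound for the height of the partial derivatives, for all extensions. -/
def S_NSD : Prop :=
  ∀ (K : Type) [Field K] [NumberField K] (n : ℕ) (f : MvPolynomial (Fin n) K),
    (∀ j, f.degreeOf j ≤ 4) → SmoothN f → ∃ B : ℝ, 1 ≤ B ∧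
      ∀ (L : Type) [Field L] [NumberField L] [Algebra K L] (z : Fin n → L), ZN (ex L f) z ≠ 0 ∧
        (∏ j, mulHeight₁ (z j)) ^ 8 ≤ B ^ totalWeight L * mulHeight (ZN (ex L f) z)

/-- TAD: the heights of the points of bounded degree which are torsion in all directions are
bounded. -/
def S_TAD : Prop :=
  ∀ (K : Type) [Field K] [NumberField K] (n : ℕ) (f : MvPolynomial (Fin n) K),
    (∀ j, f.degreeOf j ≤ 4) → SmoothN f → ∀ D : ℕ, ∃ H : ℝ,
      ∀ (L : Type) [Field L] [NumberField L] [Algebra K L], Module.finrank K L ≤ D →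
      ∀ z : Fin n → L, (∀ i, TorN (ex L f) z i) → ∀ j, mulHeight₁ (z j) ≤ H

/-- NCB: the theorem of Northcott for elements of bounded degree. -/
def S_NCB : Prop :=
  ∀ (K : Type) [Field K] [NumberField K] (D : ℕ) (H : ℝ),
    ∃ T : Set (AlgebraicClosure K), T.Finite ∧
      ∀ (L : Type) [Field L] [NumberField L] [Algebra K L], Module.finrank K L ≤ D →
      ∀ x : L, mulHeight₁ x ≤ H → ∀ φ : L →ₐ[K] AlgebraicClosure K, φ x ∈ T

/-- TAF: only finitely many points of bounded degree are torsion in all directions. -/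
def S_TAF : Prop :=
  ∀ (K : Type) [Field K] [NumberField K] (n : ℕ) (f : MvPolynomial (Fin n) K),
    (∀ j, f.degreeOf j ≤ 4) → SmoothN f → ∀ D : ℕ,
    ∃ T : Set (Fin n → AlgebraicClosure K), T.Finite ∧
      ∀ (L : Type) [Field L] [NumberField L] [Algebra K L], Module.finrank K L ≤ D →
      ∀ z : Fin n → L, (∀ i, TorN (ex L f) z i) → ∀ φ : L →ₐ[K] AlgebraicClosure K,
        (fun j => φ (z j)) ∈ T

/-- MZQ: the local closure at one rational point which is not torsion in all directions. -/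
def S_MZQ : Prop :=
  ∀ (K : Type) [Field K] [NumberField K] (n : ℕ) (F : MvPolynomial (Fin n × Fin 2) K), Hom4 F →
    SmoothF F → FinSpecF F → ∀ e : K, e ≠ 0 →
    ∀ (L : Type) [NontriviallyNormedField L] [CompleteSpace L] (σ : K →+* L), DenseRange σ →
      ∀ (W : K) (X : Fin n × Fin 2 → K), W ≠ 0 → W ^ 2 = eval X (C e * F) →
        (∃ (ε : Fin n → Fin 2) (a z : Fin n → K), (∀ j, a j ≠ 0) ∧
          X = (fun p => a p.1 * pt ε z p) ∧ ∃ i, ¬ TorN (ch F ε) z i) →
        (∀ J : Finset (Fin n), J.Nonempty → J ≠ Finset.univ → ¬ SpecF F X J) →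
        ∀ g ∈ locF σ (C e * F) (σ W) (fun p => σ (X p)),
          (MvPolynomial.X none ^ 2 - rename some (C e * F)) ∣ g

/-- `X` is the vector of coordinates of a point of `(ℙ¹)ⁿ` in which, for each factor, the first
coordinate which is not zero is one. -/
def Nrm {R : Type} [Zero R] [One R] {n : ℕ} (X : Fin n × Fin 2 → R) : Prop :=
  ∀ j, X (j, 0) = 1 ∨ X (j, 0) = 0 ∧ X (j, 1) = 1

/-- INX: for all quadratic twists over all extensions of bounded degree the set of rational points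
off the branch divisor and not over a fixed finite set is empty, or the set of rational points is
infinite. -/
def S_INX : Prop :=
  ∀ (K : Type) [Field K] [NumberField K] (n : ℕ) (F : MvPolynomial (Fin n × Fin 2) K), Hom4 F →
    SmoothF F → ∀ D : ℕ, ∃ T : Set (Fin n × Fin 2 → AlgebraicClosure K), T.Finite ∧
      ∀ (L : Type) [Field L] [NumberField L] [Algebra K L], Module.finrank K L ≤ D →
      ∀ e : L, e ≠ 0 →
        {P : L × (Fin n × Fin 2 → L) | Nrm P.2 ∧ P.1 ^ 2 = eval P.2 (C e * ex L F)}.Infinite ∨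
        ∀ (W : L) (X : Fin n × Fin 2 → L), Nrm X → W ^ 2 = eval X (C e * ex L F) → W ≠ 0 →
          ∀ φ : L →ₐ[K] AlgebraicClosure K, (fun p => φ (X p)) ∈ T

/-- MZX: Mazur's question for all quadratic twists over all extensions of bounded degree, with one
finite set. -/
def S_MZX : Prop :=
  ∀ (K : Type) [Field K] [NumberField K] (n : ℕ) (F : MvPolynomial (Fin n × Fin 2) K), Hom4 F →
    SmoothF F → ∀ D : ℕ, ∃ T : Set (Fin n × Fin 2 → AlgebraicClosure K), T.Finite ∧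
      ∀ (L : Type) [Field L] [NumberField L] [Algebra K L], Module.finrank K L ≤ D →
      FinSpecF (ex L F) → ∀ e : L, e ≠ 0 →
      ∀ (M : Type) [NontriviallyNormedField M] [CompleteSpace M] (σ : L →+* M), DenseRange σ →
        ∀ (W : L) (X : Fin n × Fin 2 → L), (∀ j, ∃ b, X (j, b) ≠ 0) → W ≠ 0 →
          W ^ 2 = eval X (C e * ex L F) →
          (∀ (φ : L →ₐ[K] AlgebraicClosure K), ∀ t ∈ T, ∀ a : Fin n → AlgebraicClosure K,
            (fun p => φ (X p)) ≠ fun p => a p.1 * t p) →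
          (∀ J : Finset (Fin n), J.Nonempty → J ≠ Finset.univ → ¬ SpecF (ex L F) X J) →
          ∀ g ∈ locF σ (C e * ex L F) (σ W) (fun p => σ (X p)),
            (MvPolynomial.X none ^ 2 - rename some (C e * ex L F)) ∣ g

end Pool.Agent.Q35.TB
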