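import Pool.Agent.Q35.TB.Stm

/-!
# Project TB, job TAF (helper35)
-/

set_option autoImplicit false

open Height

namespace Pool.Agent.Q35.TB

/-- TAF: only finitely many points of bounded degree are torsion in all directions. -/
theorem taf (h1 : S_TAD) (h2 : S_NCB) : S_TAF := by
  intro K _ _ n f hf hs D
  obtain ⟨H, hH⟩ := h1 K n f hf hs D
  obtain ⟨T, hT, hT2⟩ := h2 K D H
  refine ⟨{z | ∀ j, z j ∈ T}, Set.Finite.pi' (fun _ => hT), ?_⟩
  intro L _ _ _ hL z hz φ j
  exact hT2 L hL (z j) (hH L hL z hz j) φ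

end Pool.Agent.Q35.TB
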