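import Pool.Agent.Q35.TT.All1
import Pool.Agent.Q35.TB.Taf
import Pool.Agent.Q190.TB.Prm
import Pool.Agent.Q210.TB.Lbu
import Pool.Agent.Q190.TB.Lox
import Pool.Agent.Q129.TB.Gld
import Pool.Agent.Q182.TB.Sex
import Pool.Agent.Q182.TB.Orx
import Pool.Agent.Q65.TB.Prd
import Pool.Agent.Q26.TB.Tad
import Pool.Agent.Q150.TB.Nsd
import Pool.Agent.Q150.TB.Ncb
import Pool.Agent.Q26.TB.Mzq
import Pool.Agent.Q129.TB.Inx
import Pool.Agent.Q150.TB.Mzx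
import Pool.Agent.Q38.TB.Enr
import Pool.Agent.Q13.TB.Scf
import Pool.Agent.Q13.TB.Exf

/-!
# Project TB: the theorems for points of bounded degree, assembled (helper35)
-/

set_option autoImplicit false

namespace Pool.Agent.Q35.TB

open Pool.Agent.Q35.TT
open Pool.Agent.Q121.TT (trn)

theorem tad2 : S_TAD :=
  Pool.Agent.Q26.TB.tad
    (Pool.Agent.Q129.TB.Gld.gld Pool.Agent.Q53.TT.ARC.arc trn
      (Pool.Agent.Q210.TB.lbu Pool.Agent.Q190.TB.Prm.prm Pool.Agent.Q68.TT.Ext.ext trn)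
      (Pool.Agent.Q190.TB.Lox.lox trn) (Pool.Agent.Q190.TB.Lox.lgx trn))
    (Pool.Agent.Q182.TB.Orx.orx trn Pool.Agent.Q68.TT.Ext.ext Pool.Agent.Q190.TB.Prm.fgt
      Pool.Agent.Q182.TB.sex)
    Pool.Agent.Q65.TB.prd Pool.Agent.Q150.TB.nsd

theorem taf2 : S_TAF := taf tad2 Pool.Agent.Q150.TB.ncb

theorem mzm2 : S_MZM := mzm_of orn2

theorem inv2 : S_INV := Pool.Agent.Q190.TT.inv tws2

theorem mzq2 : S_MZQ := Pool.Agent.Q26.TB.mzq inv2 mzm2 Pool.Agent.Q182.TT.CHF.chf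

theorem exf2 : S_EXF := Pool.Agent.Q13.TB.exf Pool.Agent.Q182.TT.CHF.chf

theorem scf2 : S_SCF := Pool.Agent.Q13.TB.scf trn Pool.Agent.Q182.TT.CHF.chf

theorem inx2 : S_INX :=
  Pool.Agent.Q129.TB.Inx.inx taf2 mov2 Pool.Agent.Q182.TT.CHF.chf inv2 exf2

theorem mzx2 : S_MZX :=
  Pool.Agent.Q150.TB.mzx taf2 mzq2 Pool.Agent.Q182.TT.CHF.chf exf2

theorem enr2 : S_ENR :=
  Pool.Agent.Q38.TB.enr taf2 mzq2 Pool.Agent.Q182.TT.CHF.chf fsf2 scf2 exf2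

end Pool.Agent.Q35.TB
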