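import Pool.Agent.Q35.TB.Stm

/-!
# Enriques surfaces (Horikawa's model): rational points, statement (project TB, helper35)

`F` is a form of bidegree (4,4) over `K` in which `x₁` and `y₁` occur together to even powers, and
`ι : (w; x₀, x₁; y₀, y₁) ↦ (-w; x₀, -x₁; y₀, -y₁)` on `X : w² = F`. The points of the quotient `X / ι`
over an extension `L` of `K` are the pairs `{P, ιP}` of points over the algebraic closure which are
stable under the Galois group of `L`.
-/

set_option autoImplicit false

open Pool.Agent.Y720.MZ MvPolynomial Height AdmissibleAbsValues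

namespace Pool.Agent.Q35.TB

open Pool.Agent.Q35.TT

section

variable {K : Type} [Field K]

/-- In all monomials of `F` the sum of the exponents of `x₁` and `y₁` is even. -/
def EvenF (F : MvPolynomial (Fin 2 × Fin 2) K) : Prop :=
  ∀ m ∈ F.support, Even (m (0, 1) + m (1, 1))

/-- The coordinates after the change of signs of the second coordinates. -/
def flip {R : Type} [Neg R] (X : Fin 2 × Fin 2 → R) (p : Fin 2 × Fin 2) : R :=
  if p.2 = 1 then - X p else X p

/-- The vectors are coordinate vectors of the same point. -/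
def SamePt {R : Type} [CommRing R] (w : R) (X : Fin 2 × Fin 2 → R) (w' : R)
    (X' : Fin 2 × Fin 2 → R) : Prop :=
  ∃ a : Fin 2 → R, (∀ j, a j ≠ 0) ∧ w' = (∏ j, a j) ^ 2 * w ∧ X' = fun p => a p.1 * X p

/-- The point `P = (w, X)` of `w² = F` over the algebraic closure maps to an `L`-point of the
quotient: for all `σ` in the Galois group `σ P` is `P` or `ιP`. -/
def EnrPt (L : IntermediateField K (AlgebraicClosure K)) (F : MvPolynomial (Fin 2 × Fin 2) K)
    (w : AlgebraicClosure K) (X : Fin 2 × Fin 2 → AlgebraicClosure K) : Prop :=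
  (∀ j, ∃ b, X (j, b) ≠ 0) ∧ w ^ 2 = aeval X F ∧
    ∀ σ : AlgebraicClosure K ≃ₐ[L] AlgebraicClosure K,
      SamePt w X (σ w) (fun p => σ (X p)) ∨ SamePt (-w) (flip X) (σ w) (fun p => σ (X p))

end

/-- ENR: for all extensions `L` of bounded degree the `L`-points of the quotient are Zariski dense, or
all of them lie on the branch curve, on special lines or over a fixed finite set. -/
def S_ENR : Prop :=
  ∀ (K : Type) [Field K] [NumberField K] (F : MvPolynomial (Fin 2 × Fin 2) K), Hom4 F →
    SmoothF F → EvenF F → ∀ D : ℕ, ∃ T : Set (Fin 2 × Fin 2 → AlgebraicClosure K), T.Finite ∧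
      ∀ L : IntermediateField K (AlgebraicClosure K), FiniteDimensional K L →
      Module.finrank K L ≤ D →
        (∀ g : MvPolynomial (Option (Fin 2 × Fin 2)) K,
          (∀ (w : AlgebraicClosure K) (X : Fin 2 × Fin 2 → AlgebraicClosure K), EnrPt L F w X →
            aeval (fun o => o.elim w X) g = 0) →
          (MvPolynomial.X none ^ 2 - rename some F) ∣ g) ∨
        ∀ (w : AlgebraicClosure K) (X : Fin 2 × Fin 2 → AlgebraicClosure K), EnrPt L F w X →
          w = 0 ∨ (∃ J : Finset (Fin 2), J.Nonempty ∧ J ≠ Finset.univ ∧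
            SpecF (ex (AlgebraicClosure K) F) X J) ∨
          ∃ t ∈ T, ∃ a : Fin 2 → AlgebraicClosure K, X = fun p => a p.1 * t p

/-- SCF: substitution `x_{j,1} ↦ c x_{j,1}` in all blocks: the torsion condition and the special
planes. -/
def S_SCF : Prop :=
  ∀ (K : Type) [Field K] [CharZero K] (n : ℕ) (F G : MvPolynomial (Fin n × Fin 2) K), Hom4 F →
    Hom4 G → ∀ c e : K, c ≠ 0 → e ≠ 0 →
    (∀ X : Fin n × Fin 2 → K, eval X G = e * eval (fun p => if p.2 = 1 then c * X p else X p) F) →
    (SmoothF F → SmoothF G) ∧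
    (∀ (X : Fin n × Fin 2 → K) (J : Finset (Fin n)),
      SpecF G X J ↔ SpecF F (fun p => if p.2 = 1 then c * X p else X p) J) ∧
    ∀ (ε : Fin n → Fin 2) (z : Fin n → K) (i : Fin n),
      TorN (ch G ε) z i ↔ TorN (ch F ε) (fun j => if ε j = 0 then c * z j else z j / c) i

/-- EXF: algebraic extension of the ground field. -/
def S_EXF : Prop :=
  ∀ (K L : Type) [Field K] [Field L] [CharZero K] [Algebra K L] [Algebra.IsAlgebraic K L] (n : ℕ)
    (F : MvPolynomial (Fin n × Fin 2) K), Hom4 F →
    Hom4 (ex L F) ∧ (SmoothF F ↔ SmoothF (ex L F)) ∧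
    (∀ ε : Fin n → Fin 2, ch (ex L F) ε = ex L (ch F ε)) ∧
    (∀ (X : Fin n × Fin 2 → K) (J : Finset (Fin n)),
      SpecF (ex L F) (fun p => algebraMap K L (X p)) J ↔ SpecF F X J) ∧
    ∀ (f : MvPolynomial (Fin n) K), (∀ j, f.degreeOf j ≤ 4) →
      (∀ j, (ex L f).degreeOf j ≤ 4) ∧ (SmoothN f ↔ SmoothN (ex L f)) ∧
      (∀ (z : Fin n → K) (i : Fin n), TorN (ex L f) (fun j => algebraMap K L (z j)) i ↔ TorN f z i)

end Pool.Agent.Q35.TB
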